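import Pool.Agent.U196.SO.Stm

set_option autoImplicit false

/-!
U689.SO: the integral of the horizontal integral of the argument.
-/

namespace Pool.Agent.U689.SO

open Filter Topology MeasureTheory Complex Set
open Pool.Agent.Q121.UM
open Pool.Agent.U761.SZ (AI)
open Pool.Agent.U196.SO (Phi S_FTC)

noncomputable section

theorem zeta_an {s : ℂ} (hs : s ≠ 1) : AnalyticAt ℂ riemannZeta s := by
  refine DifferentiableOn.analyticAt (s := {1}ᶜ)
    (fun z hz => (differentiableAt_riemannZeta hz).differentiableWithinAt) ?_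
  exact isOpen_compl_singleton.mem_nhds hs

/-- the vertical integral of the logarithmic derivative -/
theorem verti {F : ℂ → ℂ} {a b c d x : ℝ} (hcd : c ≤ d)
    (hF : AnalyticOnNhd ℂ F (Icc a b ×ℂ Icc c d)) (hx : x ∈ Icc a b)
    (h : ∀ y ∈ Icc c d, F ⟨x, y⟩ ≠ 0) :
    ∫ y in c..d, (deriv F ⟨x, y⟩ / F ⟨x, y⟩).im = Real.log ‖F ⟨x, c⟩‖ - Real.log ‖F ⟨x, d⟩‖ := by
  have hm : MapsTo (fun y : ℝ => (⟨x, y⟩ : ℂ)) (Icc c d) (Icc a b ×ℂ Icc c d) :=
    fun y hy => ⟨hx, hy⟩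
  have key : ∫ y in c..d, -(deriv F ⟨x, y⟩ / F ⟨x, y⟩).im =
      Real.log ‖F ⟨x, d⟩‖ - Real.log ‖F ⟨x, c⟩‖ := by
    apply intervalIntegral.integral_eq_sub_of_hasDerivAt
      (f := fun y : ℝ => Real.log ‖F ⟨x, y⟩‖)
    · intro y hy
      rw [uIcc_of_le hcd] at hy
      have h1 : HasDerivAt F (deriv F ⟨x, y⟩) (⟨x, y⟩ : ℂ) :=
        (hF ⟨x, y⟩ ⟨hx, hy⟩).differentiableAt.hasDerivAt
      have h2 : HasDerivAt (fun y : ℝ => (⟨x, y⟩ : ℂ)) I y := by
        have h3 := ((hasDerivAt_id (y : ℝ)).ofReal_comp.mul_const I).const_add (x : ℂ)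
        have e1 : (fun y : ℝ => (⟨x, y⟩ : ℂ)) = fun y : ℝ => (x : ℂ) + y * I := by
          funext y; exact H370.mk_eq x y
        rw [e1]
        simpa using h3
      have h3 : HasDerivAt (fun y : ℝ => F ⟨x, y⟩) (deriv F ⟨x, y⟩ * I) y := h1.comp y h2
      have h4 := hd_log h3 (h y hy)
      have e : (deriv F ⟨x, y⟩ * I / F ⟨x, y⟩).re = -(deriv F ⟨x, y⟩ / F ⟨x, y⟩).im := by
        rw [mul_div_right_comm]
        simp
      rw [e] at h4
      exact h4
    · apply ContinuousOn.intervalIntegrable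
      rw [uIcc_of_le hcd]
      apply ContinuousOn.neg
      apply Complex.continuous_im.comp_continuousOn
      apply ContinuousOn.div
      · exact (hF.deriv.continuousOn).comp (cont_mk_right x).continuousOn hm
      · exact (hF.continuousOn).comp (cont_mk_right x).continuousOn hm
      · exact h
  rw [intervalIntegral.integral_neg] at key
  linarith

/-- `log|F|` is integrable on a horizontal segment, also through zeros -/
theorem hor_int {F : ℂ → ℂ} {a b y : ℝ} (hab : a ≤ b)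
    (hF : ∀ x ∈ Icc a b, AnalyticAt ℂ F ⟨x, y⟩) :
    IntervalIntegrable (fun x : ℝ => Real.log ‖F ⟨x, y⟩‖) volume a b := by
  have hA : AnalyticOnNhd ℝ (fun x : ℝ => F ⟨x, y⟩) (uIcc a b) := by
    intro x hx
    rw [uIcc_of_le hab] at hx
    have h1 : AnalyticAt ℝ F (⟨x, y⟩ : ℂ) := (hF x hx).restrictScalars
    have h2 : AnalyticAt ℝ (fun x : ℝ => (⟨x, y⟩ : ℂ)) x := by
      have e1 : (fun x : ℝ => (⟨x, y⟩ : ℂ)) = fun x : ℝ => (x : ℂ) + y * I := by
        funext x; exact H370.mk_eq x y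
      rw [e1]
      exact (Complex.ofRealCLM.analyticAt x).add analyticAt_const
    exact AnalyticAt.comp (g := F) (f := fun x : ℝ => (⟨x, y⟩ : ℂ)) (x := x) h1 h2
  exact hA.meromorphicOn.intervalIntegrable_log_norm

theorem fubini {F : ℂ → ℂ} {a b c d : ℝ} (hab : a ≤ b) (hcd : c ≤ d)
    (hF : AnalyticOnNhd ℂ F (Icc a b ×ℂ Icc c d)) (p : ℂ) (hp : p ∈ Icc a b ×ℂ Icc c d)
    (hFp : F p ≠ 0) :
    IntervalIntegrable (fun y : ℝ => ∫ x in a..b, (deriv F ⟨x, y⟩ / F ⟨x, y⟩).im) volume c d ∧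
    ∫ y in c..d, ∫ x in a..b, (deriv F ⟨x, y⟩ / F ⟨x, y⟩).im =
      (∫ x in a..b, Real.log ‖F ⟨x, c⟩‖) - ∫ x in a..b, Real.log ‖F ⟨x, d⟩‖ := by
  set K : Set ℂ := Icc a b ×ℂ Icc c d with hK
  have hKc : IsCompact K := isCompact_Icc.reProdIm isCompact_Icc
  have hKpre : IsPreconnected K := by
    have : Convex ℝ K := by
      have h1 := (convex_Icc a b).linear_preimage Complex.reLm
      have h2 := (convex_Icc c d).linear_preimage Complex.imLm
      exact h1.inter h2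
    exact this.isPreconnected
  have hnt0 : ∀ s ∈ K, ¬ (∀ᶠ z in 𝓝 s, F z = 0) := fun s hs h1 =>
    hFp (hF.eqOn_zero_of_preconnected_of_eventuallyEq_zero hKpre hs h1 hp)
  have hnt : ∀ s ∈ K, ∀ᶠ z in 𝓝[≠] s, F z ≠ 0 := by
    intro s hs
    rcases (hF s hs).eventually_eq_zero_or_eventually_ne_zero with h1 | h1
    · exact absurd h1 (hnt0 s hs)
    · exact h1
  have hfin : Set.Finite {s | s ∈ K ∧ F s = 0} := by
    by_contra hinf
    obtain ⟨z, hz, hacc⟩ := Set.Infinite.exists_accPt_of_subset_isCompact hinf hKc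
      (fun s hs => hs.1)
    rw [accPt_iff_frequently_nhdsNE] at hacc
    have := hacc.and_eventually (hnt z hz)
    obtain ⟨w, hw⟩ := this.exists
    exact hw.2 hw.1.2
  set Z0 : Finset ℂ := hfin.toFinset with hZ0
  have hz : ∀ s ∈ K, F s = 0 ↔ s ∈ Z0 := by
    intro s hs
    rw [hZ0, Set.Finite.mem_toFinset]
    exact ⟨fun h => ⟨hs, h⟩, fun h => h.2⟩
  have hz2 : ∀ s ∈ Z0, s ∈ K ∧ analyticOrderAt F s ≠ ⊤ := by
    intro s hs
    rw [hZ0, Set.Finite.mem_toFinset] at hs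
    refine ⟨hs.1, ?_⟩
    intro h
    exact hnt0 s hs.1 (analyticOrderAt_eq_top.1 h)
  have hbox := box_int hab hcd F Z0 hF hz hz2
  set f : ℝ → ℝ → ℝ := fun x y => (deriv F ⟨x, y⟩ / F ⟨x, y⟩).im with hf
  have hfI : Integrable (Function.uncurry f) (mu a b c d) := by
    have h1 := hbox.im
    exact h1
  have hfub : ∫ σ in a..b, ∫ y in c..d, f σ y = ∫ y in c..d, ∫ σ in a..b, f σ y := by
    simp only [intervalIntegral.integral_of_le hab, intervalIntegral.integral_of_le hcd]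
    exact integral_integral_swap hfI
  have hinner : IntervalIntegrable (fun y => ∫ σ in a..b, f σ y) volume c d := by
    rw [intervalIntegrable_iff_integrableOn_Ioc_of_le hcd]
    simp only [intervalIntegral.integral_of_le hab]
    exact hfI.integral_prod_right
  refine ⟨hinner, ?_⟩
  have hB : ∀ᵐ σ ∂(volume : Measure ℝ), σ ∈ Ioc a b → ∫ y in c..d, f σ y =
      Real.log ‖F ⟨σ, c⟩‖ - Real.log ‖F ⟨σ, d⟩‖ := by
    filter_upwards [(Finset.countable_toSet (Z0.image re)).ae_notMem volume] with σ hσ hσI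
    have h3 : ∀ y ∈ Icc c d, F ⟨σ, y⟩ ≠ 0 := by
      intro y hy h0
      apply hσ
      rw [Finset.mem_coe, Finset.mem_image]
      exact ⟨⟨σ, y⟩, (hz _ ⟨Ioc_subset_Icc_self hσI, hy⟩).1 h0, rfl⟩
    exact verti hcd hF (Ioc_subset_Icc_self hσI) h3
  have hIc : IntervalIntegrable (fun x : ℝ => Real.log ‖F ⟨x, c⟩‖) volume a b :=
    hor_int hab fun x hx => hF _ ⟨hx, ⟨le_rfl, hcd⟩⟩
  have hId : IntervalIntegrable (fun x : ℝ => Real.log ‖F ⟨x, d⟩‖) volume a b :=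
    hor_int hab fun x hx => hF _ ⟨hx, ⟨hcd, le_rfl⟩⟩
  calc ∫ y in c..d, ∫ x in a..b, (deriv F ⟨x, y⟩ / F ⟨x, y⟩).im
      = ∫ σ in a..b, ∫ y in c..d, f σ y := hfub.symm
    _ = ∫ σ in a..b, (Real.log ‖F ⟨σ, c⟩‖ - Real.log ‖F ⟨σ, d⟩‖) :=
        intervalIntegral.integral_congr_ae (by rw [uIoc_of_le hab]; exact hB)
    _ = _ := intervalIntegral.integral_sub hIc hId

/-- job FTC -/
theorem t_FTC : S_FTC := by
  intro u hu
  have hF : AnalyticOnNhd ℂ riemannZeta (Icc (1 / 2 : ℝ) (3 / 2) ×ℂ Icc 100 u) := by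
    rintro s ⟨-, hs⟩
    apply zeta_an
    rintro rfl
    rw [mem_preimage] at hs
    have := hs.1
    norm_num at this
  have h1 : riemannZeta ⟨3 / 2, 100⟩ ≠ 0 := riemannZeta_ne_zero_of_one_le_re (by norm_num)
  exact fubini (by norm_num) hu hF ⟨3 / 2, 100⟩ ⟨⟨by norm_num, by norm_num⟩, ⟨le_rfl, hu⟩⟩ h1

end

end Pool.Agent.U689.SO
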